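import Pool.Agent.H917R2.HO.Pt

/-!
ROOM HO (helper917): the bridge from helper758's `PK` to the momentum form `Pt`.
-/

open Metric
open scoped Topology ContDiff

noncomputable section

namespace Pool.Agent.H917R2.HO

open Pool.Agent.H821R3 H907H H758H

/-- For an affine `K = A + T z` the curvature expression `PK` (helper758) equals the momentum form
`Pt` with constant momenta, up to an explicit translation of `γ`. -/
theorem PK_eq_Pt {A : A6 →L[ℝ] A6} {T : A6 →L[ℝ] A6 →L[ℝ] A6}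
    (hA : ∀ u v, pr (A u) v = pr u (A v)) (hT : ∀ z u v, pr (T z u) v = pr u (T z v))
    {z a b γ : A6} (h1 : ‖z.1‖ = 1) (h2 : ‖z.2‖ = 1) (ha : Tan z a) (hb : Tan z b) :
    PK (Kaff A T) (fun _ => T) (fun _ => 0) z a b γ =
      Pt A T z (J z a) (J z b) (J z γ +
        (J (J z a) (Kaff A T z (J z b)) - J (J z b) (Kaff A T z (J z a)) -
          Pn z (J (J z a) (Kaff A T z (J z b)) - J (J z b) (Kaff A T z (J z a))))) := by
  have hk : ∀ u v, pr (Kaff A T z u) v = pr u (Kaff A T z v) := by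
    intro u v
    have := hA u v
    have h := hT z u v
    simp only [Kaff, _root_.add_apply, ← prB_apply, map_add]
    rw [← prB_apply, ← prB_apply] at this h
    linarith
  have nk := pr_tangent_nonK h1 h2 ha hb (Kaff A T z (J z a)) (Kaff A T z (J z b))
  rw [PK, WK_eq, WK_eq, F2_eq h1 h2 hb hb ha, F2_eq h1 h2 ha ha hb, F2_eq h1 h2 ha hb hb,
    F2_eq h1 h2 ha hb ha, W1_eq h1 h2 hb, W1_eq h1 h2 ha, rot_F1 h1 h2 ha ha hk,
    rot_F1 h1 h2 hb hb hk, rot_F1 h1 h2 ha hb hk]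
  have hγ : ∀ B : A6, pr γ (J B z) = pr (J z γ) B := by
    intro B
    simp only [pr, inner3, J_fst, J_snd, cr0, cr1, cr2]
    ring
  have e1 : ∀ Y v : A6, pr (Pn z (J Y (J z a))) v =
      pr Y (J (J z a) v) - pr Y (Pn z (J (J z a) v)) := pr_Pn_J h1 h2
  have e2 : ∀ Y v : A6, pr (Pn z (J Y (J z b))) v =
      pr Y (J (J z b) v) - pr Y (Pn z (J (J z b) v)) := pr_Pn_J h1 h2
  rw [Pt]
  simp only []
  set k : A6 →L[ℝ] A6 := Kaff A T z with hkdef
  set u : A6 := J z a with hu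
  set w : A6 := J z b with hw
  set ξ : A6 := k u with hξ
  set η : A6 := k w with hη
  have p11 : Pn z (J ξ u) = -Pn z (J u ξ) := by rw [J_anti, Pn_neg]
  have p12 : Pn z (J ξ w) = -Pn z (J w ξ) := by rw [J_anti, Pn_neg]
  have p21 : Pn z (J η u) = -Pn z (J u η) := by rw [J_anti, Pn_neg]
  have p22 : Pn z (J η w) = -Pn z (J w η) := by rw [J_anti, Pn_neg]
  have pD : Pn z (J u η - J w ξ) = Pn z (J u η) - Pn z (J w ξ) := Pn_sub _ _ _
  rw [p11, p12, p21, p22, pD]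
  have ku : ∀ v, pr u (k v) = pr v ξ := fun v => by rw [← hk, H907H.pr_comm]
  have kw : ∀ v, pr w (k v) = pr v η := fun v => by rw [← hk, H907H.pr_comm]
  simp only [ku, kw, e1, e2, pr_T_add]
  have tu : ∀ t v, pr u (T t v) = pr (T t u) v := fun t v => (hT t u v).symm
  have tw : ∀ t v, pr w (T t v) = pr (T t w) v := fun t v => (hT t w v).symm
  rw [tu (J η z) (-Pn z (J u η)), tu (J ξ z) (-Pn z (J w η)), tu (J η z) (-Pn z (J w ξ)),
    tw (J ξ z) (-Pn z (J w ξ))]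
  have j1 : J η (J ξ z) = J ξ (J η z) - J (J ξ η) z := by
    have := jacobi ξ η z
    rw [sub_eq_iff_eq_add] at this
    rw [this]
    abel
  have tr1 : ∀ c x y : A6, pr c (J x y) = -pr x (J c y) := by
    intro c x y
    simp only [pr, inner3, J_fst, J_snd, cr0, cr1, cr2]
    ring
  have tr2 : ∀ c x y : A6, pr c (J x y) = pr y (J c x) := by
    intro c x y
    simp only [pr, inner3, J_fst, J_snd, cr0, cr1, cr2]
    ring
  have g1 : pr γ (J (T (J ξ z) w + k (-Pn z (J w ξ))) z + J η (J ξ z) -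
      (J (T (J η z) u + k (-Pn z (J u η))) z + J ξ (J η z))) =
      pr (J z γ) (T (J ξ z) w + k (-Pn z (J w ξ))) - pr (J z γ) (J ξ η) -
        pr (J z γ) (T (J η z) u + k (-Pn z (J u η))) := by
    rw [← hγ, ← hγ, ← hγ, j1]
    simp only [← prB_apply, map_add, map_sub]
    ring
  rw [g1]
  have r1 : pr w (J (T (J ξ z) u) η + J ξ (T (J ξ z) w)) =
      -pr (T (J ξ z) u) (J w η) + pr (T (J ξ z) w) (J w ξ) := by
    rw [H907H.pr_add_right, tr1 w (T (J ξ z) u) η, tr2 w ξ (T (J ξ z) w)]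
  have r2 : pr u (J (T (J η z) u) η + J ξ (T (J η z) w)) =
      -pr (T (J η z) u) (J u η) + pr (T (J η z) w) (J u ξ) := by
    rw [H907H.pr_add_right, tr1 u (T (J η z) u) η, tr2 u ξ (T (J η z) w)]
  have r3 : ∀ c d y y' : A6, pr c (T (y + y') d) = pr c (T y d) + pr c (T y' d) := by
    intro c d y y'
    simp only [← prB_apply, map_add, _root_.add_apply]
  rw [r1, r2, r3, r3, r3, r3]
  clear_value k
  generalize T (J ξ z) u = p at *
  generalize T (J ξ z) w = q at *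
  generalize T (J η z) u = r at *
  generalize T (J η z) w = t at *
  generalize J ξ η = U at *
  generalize Pn z (J u ξ) = a1 at *
  generalize Pn z (J w ξ) = a2 at *
  generalize Pn z (J u η) = a3 at *
  generalize Pn z (J w η) = a4 at *
  generalize J u ξ = b1 at *
  generalize J w ξ = b2 at *
  generalize J u η = b3 at *
  generalize J w η = b4 at *
  generalize tau T z u u = t1 at *
  generalize tau T z u w = t2 at *
  generalize tau T z w w = t3 at *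
  generalize J z γ = G at *
  have cm : ∀ x y, prB x y = prB y x := by
    intro x y
    rw [prB_apply, prB_apply, H907H.pr_comm]
  have ck : ∀ x y, prB x (k y) = prB y (k x) := by
    intro x y
    rw [cm, prB_apply, prB_apply, hk]
  simp only [← prB_apply, map_add, map_sub, map_neg, _root_.add_apply, _root_.sub_apply,
    _root_.neg_apply] at nk ⊢
  simp only [cm q p, cm r p, cm t p, cm U p, cm a1 p, cm a2 p, cm a3 p, cm a4 p, cm b1 p, cm b2 p, cm b3 p, cm b4 p, cm t1 p, cm t2 p, cm t3 p, cm G p, cm r q, cm t q, cm U q, cm a1 q, cm a2 q, cm a3 q, cm a4 q, cm b1 q, cm b2 q, cm b3 q, cm b4 q, cm t1 q, cm t2 q, cm t3 q, cm G q, cm t r, cm U r, cm a1 r, cm a2 r, cm a3 r, cm a4 r, cm b1 r, cm b2 r, cm b3 r, cm b4 r, cm t1 r, cm t2 r, cm t3 r, cm G r, cm U t, cm a1 t, cm a2 t, cm a3 t, cm a4 t, cm b1 t, cm b2 t, cm b3 t, cm b4 t, cm t1 t, cm t2 t, cm t3 t, cm G t, cm a1 U, cm a2 U, cm a3 U, cm a4 U, cm b1 U,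 cm b2 U, cm b3 U, cm b4 U, cm t1 U, cm t2 U, cm t3 U, cm G U, cm a2 a1, cm a3 a1, cm a4 a1, cm b1 a1, cm b2 a1, cm b3 a1, cm b4 a1, cm t1 a1, cm t2 a1, cm t3 a1, cm G a1, cm a3 a2, cm a4 a2, cm b1 a2, cm b2 a2, cm b3 a2, cm b4 a2, cm t1 a2, cm t2 a2, cm t3 a2, cm G a2, cm a4 a3, cm b1 a3, cm b2 a3, cm b3 a3, cm b4 a3, cm t1 a3, cm t2 a3, cm t3 a3, cm G a3, cm b1 a4, cm b2 a4, cm b3 a4, cm b4 a4, cm t1 a4, cm t2 a4, cm t3 a4, cm G a4, cm b2 b1, cm b3 b1, cm b4 b1, cm t1 b1, cm t2 b1, cm t3 b1, cm G b1, cm b3 b2, cm b4 b2, cm t1 b2, cm t2 b2, cm t3 b2, cm G b2, cm b4 b3, cm t1 b3, cm t2 b3, cm t3 b3, cm G b3, cm t1 b4, cm t2 b4, cm t3 b4, cm G b4, cm t2 t1, cm t3 t1, cm G t1, cm t3 t2, cm G t2, cm G t3] at nk ⊢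
  have ck2 : ∀ x y, prB (k x) y = prB x (k y) := by
    intro x y
    rw [prB_apply, prB_apply, hk]
  simp only [ck2, ck a2 a1, ck a3 a1, ck a4 a1, ck b1 a1, ck b2 a1, ck b3 a1, ck b4 a1, ck t1 a1, ck t2 a1, ck t3 a1, ck G a1, ck a3 a2, ck a4 a2, ck b1 a2, ck b2 a2, ck b3 a2, ck b4 a2, ck t1 a2, ck t2 a2, ck t3 a2, ck G a2, ck a4 a3, ck b1 a3, ck b2 a3, ck b3 a3, ck b4 a3, ck t1 a3, ck t2 a3, ck t3 a3, ck G a3, ck b1 a4, ck b2 a4, ck b3 a4, ck b4 a4, ck t1 a4, ck t2 a4, ck t3 a4, ck G a4, ck b2 b1, ck b3 b1, ck b4 b1, ck t1 b1, ck t2 b1, ck t3 b1, ck G b1, ck b3 b2, ck b4 b2, ck t1 b2, ck t2 b2, ck t3 b2, ck G b2, ck b4 b3, ck t1 b3, ck t2 b3, ck t3 b3, ck G b3, ck t1 b4, ck t2 b4, ck t3 b4, ck G b4, ck t2 t1, ck t3 t1, ck G t1, ck t3 t2, ck G t2, ck G t3]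
  linear_combination nk

end Pool.Agent.H917R2.HO
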