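import Pool.Agent.H758R2.HO.Com

/-!
ROOM HO (helper917): the curvature expression in momentum form with constant momenta
(helper464's formula), and the bridge from helper758's `PK`.
-/

open Metric
open scoped Topology ContDiff

noncomputable section

namespace Pool.Agent.H917R2.HO

open Pool.Agent.H821R3 H907H H758H

local notation "⟪" x ", " y "⟫" => inner ℝ x y

/-- projection to the normal directions `(ℝ x, ℝ y)` -/
def Pn (z v : A6) : A6 := (⟪z.1, v.1⟫ • z.1, ⟪z.2, v.2⟫ • z.2)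

/-- the momentum gradient of `z ↦ ⟨c, T z d⟩` -/
def tau (T : A6 →L[ℝ] A6 →L[ℝ] A6) (z c d : A6) : A6 := rot (fun ζ => pr c (T ζ d)) z

/-- The curvature expression of the cometric `K = A + T z` in momentum form, with constant
momenta `u`, `w` (helper464's formula, note 406 (1)); `J u v` is the blockwise cross product. -/
def Pt (A : A6 →L[ℝ] A6) (T : A6 →L[ℝ] A6 →L[ℝ] A6) (z u w g : A6) : ℝ :=
  let k : A6 →L[ℝ] A6 := Kaff A T z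
  let ξ := k u
  let η := k w
  let D := J u η - J w ξ
  let B := T (J ξ z) w - T (J η z) u - J ξ η
  let S := fun c d => tau T z c d + J c (k d) + J d (k c)
  1 / 2 * pr w (T (J (T (J ξ z) u) z + J ξ (J ξ z)) w) +
    1 / 2 * pr u (T (J (T (J η z) w) z + J η (J η z)) u) -
    1 / 2 * (pr u (T (J (T (J ξ z) w) z + J η (J ξ z)) w) +
      pr u (T (J (T (J η z) u) z + J ξ (J η z)) w)) -
    pr w (J (T (J ξ z) u) η + J ξ (T (J ξ z) w)) +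
    pr u (J (T (J η z) u) η + J ξ (T (J η z) w)) +
    1 / 4 * pr (S u w) (k (S u w)) - 1 / 4 * pr (S u u) (k (S w w)) +
    pr B D + 3 / 4 * pr D (k D) + 3 / 4 * (pr g (k g) - 2 * pr g (B + k D))

/-! ### algebra of the blockwise cross product -/

theorem A6ext {a b : A6} (h0 : a.1 0 = b.1 0) (h1 : a.1 1 = b.1 1) (h2 : a.1 2 = b.1 2)
    (h3 : a.2 0 = b.2 0) (h4 : a.2 1 = b.2 1) (h5 : a.2 2 = b.2 2) : a = b :=
  Prod.ext (ext3 h0 h1 h2) (ext3 h3 h4 h5)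

theorem J_anti (u v : A6) : J u v = -J v u := by
  refine A6ext ?_ ?_ ?_ ?_ ?_ ?_ <;> simp <;> ring

theorem J_self (u : A6) : J u u = 0 := by
  refine A6ext ?_ ?_ ?_ ?_ ?_ ?_ <;> simp <;> ring

theorem pr_triple (u v w : A6) : pr (J u v) w = pr u (J v w) := by
  simp only [pr, inner3, J_fst, J_snd, cr0, cr1, cr2]
  ring

theorem jacobi (u v z : A6) : J v (J u z) - J u (J v z) = -J (J u v) z := by
  refine A6ext ?_ ?_ ?_ ?_ ?_ ?_ <;> simp <;> ring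

theorem Pn_add (z u v : A6) : Pn z (u + v) = Pn z u + Pn z v := by
  refine A6ext ?_ ?_ ?_ ?_ ?_ ?_ <;> simp [Pn, inner_add_right] <;> ring

theorem Pn_sub (z u v : A6) : Pn z (u - v) = Pn z u - Pn z v := by
  refine A6ext ?_ ?_ ?_ ?_ ?_ ?_ <;> simp [Pn, inner_sub_right] <;> ring

theorem Pn_neg (z u : A6) : Pn z (-u) = -Pn z u := by
  refine A6ext ?_ ?_ ?_ ?_ ?_ ?_ <;> simp [Pn, inner_neg_right]

theorem pr_Pn (z u v : A6) : pr (Pn z u) v = pr u (Pn z v) := by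
  simp only [pr, Pn, inner_smul_left, inner_smul_right]
  rw [real_inner_comm u.1 z.1, real_inner_comm u.2 z.2]
  simp
  ring

/-- tangent vectors: `z.1 ⊥ a.1`, `z.2 ⊥ a.2` -/
def Tan (z a : A6) : Prop := ⟪z.1, a.1⟫ = 0 ∧ ⟪z.2, a.2⟫ = 0

theorem tan_J (z a : A6) : Tan z (J z a) := J_tan a

theorem J_J_tan {z a : A6} (h1 : ‖z.1‖ = 1) (h2 : ‖z.2‖ = 1) (ha : Tan z a) (θ : A6) :
    J (J θ z) a = Pn z (J θ (J z a)) := by
  have e1 : z.1 0 * z.1 0 + z.1 1 * z.1 1 + z.1 2 * z.1 2 = 1 := by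
    rw [← inner3, real_inner_self_eq_norm_sq, h1]; norm_num
  have e2 : z.2 0 * z.2 0 + z.2 1 * z.2 1 + z.2 2 * z.2 2 = 1 := by
    rw [← inner3, real_inner_self_eq_norm_sq, h2]; norm_num
  obtain ⟨a1, a2⟩ := ha
  rw [inner3] at a1 a2
  refine A6ext ?_ ?_ ?_ ?_ ?_ ?_
  · simp only [J_fst, J_snd, cr0, cr1, cr2, Pn, inner3, PiLp.smul_apply, smul_eq_mul]
    linear_combination (-θ.1 0 + z.1 0 * (z.1 0 * θ.1 0 + z.1 1 * θ.1 1 + z.1 2 * θ.1 2)) * a1 -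
      z.1 0 * (θ.1 0 * a.1 0 + θ.1 1 * a.1 1 + θ.1 2 * a.1 2) * e1
  · simp only [J_fst, J_snd, cr0, cr1, cr2, Pn, inner3, PiLp.smul_apply, smul_eq_mul]
    linear_combination (-θ.1 1 + z.1 1 * (z.1 0 * θ.1 0 + z.1 1 * θ.1 1 + z.1 2 * θ.1 2)) * a1 -
      z.1 1 * (θ.1 0 * a.1 0 + θ.1 1 * a.1 1 + θ.1 2 * a.1 2) * e1
  · simp only [J_fst, J_snd, cr0, cr1, cr2, Pn, inner3, PiLp.smul_apply, smul_eq_mul]
    linear_combination (-θ.1 2 + z.1 2 * (z.1 0 * θ.1 0 + z.1 1 * θ.1 1 + z.1 2 * θ.1 2)) * a1 -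
      z.1 2 * (θ.1 0 * a.1 0 + θ.1 1 * a.1 1 + θ.1 2 * a.1 2) * e1
  · simp only [J_fst, J_snd, cr0, cr1, cr2, Pn, inner3, PiLp.smul_apply, smul_eq_mul]
    linear_combination (-θ.2 0 + z.2 0 * (z.2 0 * θ.2 0 + z.2 1 * θ.2 1 + z.2 2 * θ.2 2)) * a2 -
      z.2 0 * (θ.2 0 * a.2 0 + θ.2 1 * a.2 1 + θ.2 2 * a.2 2) * e2
  · simp only [J_fst, J_snd, cr0, cr1, cr2, Pn, inner3, PiLp.smul_apply, smul_eq_mul]
    linear_combination (-θ.2 1 + z.2 1 * (z.2 0 * θ.2 0 + z.2 1 * θ.2 1 + z.2 2 * θ.2 2)) * a2 -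
      z.2 1 * (θ.2 0 * a.2 0 + θ.2 1 * a.2 1 + θ.2 2 * a.2 2) * e2
  · simp only [J_fst, J_snd, cr0, cr1, cr2, Pn, inner3, PiLp.smul_apply, smul_eq_mul]
    linear_combination (-θ.2 2 + z.2 2 * (z.2 0 * θ.2 0 + z.2 1 * θ.2 1 + z.2 2 * θ.2 2)) * a2 -
      z.2 2 * (θ.2 0 * a.2 0 + θ.2 1 * a.2 1 + θ.2 2 * a.2 2) * e2

/-- for horizontal `u`: the tangential part of `u × v` is `u × (normal part of v)` -/
theorem J_Pn {z u : A6} (h1 : ‖z.1‖ = 1) (h2 : ‖z.2‖ = 1) (hu : Tan z u) (v : A6) :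
    J u (Pn z v) = J u v - Pn z (J u v) := by
  have e1 : z.1 0 * z.1 0 + z.1 1 * z.1 1 + z.1 2 * z.1 2 = 1 := by
    rw [← inner3, real_inner_self_eq_norm_sq, h1]; norm_num
  have e2 : z.2 0 * z.2 0 + z.2 1 * z.2 1 + z.2 2 * z.2 2 = 1 := by
    rw [← inner3, real_inner_self_eq_norm_sq, h2]; norm_num
  obtain ⟨a1, a2⟩ := hu
  rw [inner3] at a1 a2
  refine A6ext ?_ ?_ ?_ ?_ ?_ ?_
  · simp only [J_fst, J_snd, cr0, cr1, cr2, Pn, inner3, PiLp.smul_apply, smul_eq_mul,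
      Prod.fst_sub, Prod.snd_sub, PiLp.sub_apply]
    linear_combination -(z.1 1 * v.1 2 - z.1 2 * v.1 1) * a1 + (u.1 1 * v.1 2 - u.1 2 * v.1 1) * e1
  · simp only [J_fst, J_snd, cr0, cr1, cr2, Pn, inner3, PiLp.smul_apply, smul_eq_mul,
      Prod.fst_sub, Prod.snd_sub, PiLp.sub_apply]
    linear_combination -(z.1 2 * v.1 0 - z.1 0 * v.1 2) * a1 + (u.1 2 * v.1 0 - u.1 0 * v.1 2) * e1
  · simp only [J_fst, J_snd, cr0, cr1, cr2, Pn, inner3, PiLp.smul_apply, smul_eq_mul,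
      Prod.fst_sub, Prod.snd_sub, PiLp.sub_apply]
    linear_combination -(z.1 0 * v.1 1 - z.1 1 * v.1 0) * a1 + (u.1 0 * v.1 1 - u.1 1 * v.1 0) * e1
  · simp only [J_fst, J_snd, cr0, cr1, cr2, Pn, inner3, PiLp.smul_apply, smul_eq_mul,
      Prod.fst_sub, Prod.snd_sub, PiLp.sub_apply]
    linear_combination -(z.2 1 * v.2 2 - z.2 2 * v.2 1) * a2 + (u.2 1 * v.2 2 - u.2 2 * v.2 1) * e2
  · simp only [J_fst, J_snd, cr0, cr1, cr2, Pn, inner3, PiLp.smul_apply, smul_eq_mul,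
      Prod.fst_sub, Prod.snd_sub, PiLp.sub_apply]
    linear_combination -(z.2 2 * v.2 0 - z.2 0 * v.2 2) * a2 + (u.2 2 * v.2 0 - u.2 0 * v.2 2) * e2
  · simp only [J_fst, J_snd, cr0, cr1, cr2, Pn, inner3, PiLp.smul_apply, smul_eq_mul,
      Prod.fst_sub, Prod.snd_sub, PiLp.sub_apply]
    linear_combination -(z.2 0 * v.2 1 - z.2 1 * v.2 0) * a2 + (u.2 0 * v.2 1 - u.2 1 * v.2 0) * e2


/-! ### the part without `K` -/

theorem trip3 (x ξ η w v : V3) : ⟪cr (cr ξ (cr η x)) (cr w x), v⟫ =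
    ⟪ξ, x⟫ * (⟪η, x⟫ * ⟪w, v⟫ - ⟪η, w⟫ * ⟪x, v⟫) -
      ⟪ξ, η⟫ * (⟪x, x⟫ * ⟪w, v⟫ - ⟪x, w⟫ * ⟪x, v⟫) := by
  simp only [inner3, cr0, cr1, cr2]
  ring

theorem gram1 (ξ η u : V3) : ⟪cr ξ η, cr u η⟫ = ⟪ξ, u⟫ * ⟪η, η⟫ - ⟪ξ, η⟫ * ⟪η, u⟫ := by
  simp only [inner3, cr0, cr1, cr2]
  ring

theorem gram1' (ξ η w : V3) : ⟪cr ξ η, cr w ξ⟫ = ⟪ξ, w⟫ * ⟪ξ, η⟫ - ⟪ξ, ξ⟫ * ⟪η, w⟫ := by
  simp only [inner3, cr0, cr1, cr2]
  ring

theorem gram2 (x ξ η u : V3) : ⟪x, cr ξ η⟫ * ⟪x, cr u η⟫ =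
    ⟪x, x⟫ * (⟪ξ, u⟫ * ⟪η, η⟫ - ⟪ξ, η⟫ * ⟪η, u⟫) -
      ⟪x, u⟫ * (⟪x, ξ⟫ * ⟪η, η⟫ - ⟪ξ, η⟫ * ⟪x, η⟫) +
      ⟪x, η⟫ * (⟪x, ξ⟫ * ⟪η, u⟫ - ⟪ξ, u⟫ * ⟪x, η⟫) := by
  simp only [inner3, cr0, cr1, cr2]
  ring

theorem gram2' (x ξ η w : V3) : ⟪x, cr ξ η⟫ * ⟪x, cr w ξ⟫ =
    ⟪x, x⟫ * (⟪ξ, w⟫ * ⟪ξ, η⟫ - ⟪ξ, ξ⟫ * ⟪η, w⟫) -
      ⟪x, w⟫ * (⟪x, ξ⟫ * ⟪ξ, η⟫ - ⟪ξ, ξ⟫ * ⟪x, η⟫) +
      ⟪x, ξ⟫ * (⟪x, ξ⟫ * ⟪η, w⟫ - ⟪ξ, w⟫ * ⟪x, η⟫) := by
  simp only [inner3, cr0, cr1, cr2]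
  ring

theorem nonK3 (x ξ η u w : V3) (hx : ⟪x, x⟫ = 1) (hu : ⟪x, u⟫ = 0) (hw : ⟪x, w⟫ = 0) :
    ⟪cr (cr ξ (cr ξ x)) (cr w x), η⟫ + ⟪cr (cr η (cr η x)) (cr u x), ξ⟫ -
      1 / 2 * (⟪cr (cr η (cr ξ x)) (cr u x), η⟫ + ⟪cr (cr η (cr ξ x)) (cr w x), ξ⟫ +
        (⟪cr (cr ξ (cr η x)) (cr u x), η⟫ + ⟪cr (cr ξ (cr η x)) (cr w x), ξ⟫)) =
      1 / 2 * (⟪cr ξ η, cr u η⟫ - ⟪cr ξ η, cr w ξ⟫) -
        3 / 2 * (⟪x, cr ξ η⟫ * ⟪x, cr u η⟫ - ⟪x, cr ξ η⟫ * ⟪x, cr w ξ⟫) := by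
  rw [trip3, trip3, trip3, trip3, trip3, trip3, gram1, gram1', gram2, gram2', hx, hu, hw,
    real_inner_comm x ξ, real_inner_comm x η, real_inner_comm η ξ, real_inner_comm w ξ,
    real_inner_comm u ξ, real_inner_comm w η, real_inner_comm u η]
  ring

theorem pr_tangent_nonK {z a b : A6} (h1 : ‖z.1‖ = 1) (h2 : ‖z.2‖ = 1) (ha : Tan z a)
    (hb : Tan z b) (ξ η : A6) :
    pr (J (J ξ (J ξ z)) b) η + pr (J (J η (J η z)) a) ξ -
      1 / 2 * (pr (J (J η (J ξ z)) a) η + pr (J (J η (J ξ z)) b) ξ +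
        (pr (J (J ξ (J η z)) a) η + pr (J (J ξ (J η z)) b) ξ)) =
      1 / 2 * (pr (J ξ η) (J (J z a) η) - pr (J ξ η) (J (J z b) ξ)) -
        3 / 2 * (pr (J ξ η) (Pn z (J (J z a) η)) - pr (J ξ η) (Pn z (J (J z b) ξ))) := by
  have key : ∀ (x a : V3), ‖x‖ = 1 → ⟪x, a⟫ = 0 → cr (cr x a) x = a := by
    intro x a hx ha
    have e1 : x 0 * x 0 + x 1 * x 1 + x 2 * x 2 = 1 := by
      rw [← inner3, real_inner_self_eq_norm_sq, hx]; norm_num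
    rw [inner3] at ha
    refine ext3 ?_ ?_ ?_
    · simp only [cr0, cr1, cr2]
      linear_combination a 0 * e1 - x 0 * ha
    · simp only [cr0, cr1, cr2]
      linear_combination a 1 * e1 - x 1 * ha
    · simp only [cr0, cr1, cr2]
      linear_combination a 2 * e1 - x 2 * ha
  have k1 := nonK3 z.1 ξ.1 η.1 (cr z.1 a.1) (cr z.1 b.1)
    (by rw [real_inner_self_eq_norm_sq, h1]; norm_num) (inner_cr_self _ _) (inner_cr_self _ _)
  have k2 := nonK3 z.2 ξ.2 η.2 (cr z.2 a.2) (cr z.2 b.2)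
    (by rw [real_inner_self_eq_norm_sq, h2]; norm_num) (inner_cr_self _ _) (inner_cr_self _ _)
  rw [key _ _ h1 ha.1, key _ _ h1 hb.1] at k1
  rw [key _ _ h2 ha.2, key _ _ h2 hb.2] at k2
  simp only [pr, J_fst, J_snd, Pn, inner_smul_right]
  rw [real_inner_comm z.1 (cr ξ.1 η.1), real_inner_comm z.2 (cr ξ.2 η.2)]
  linear_combination k1 + k2


/-! ### the bridge -/

section bridge

variable {A : A6 →L[ℝ] A6} {T : A6 →L[ℝ] A6 →L[ℝ] A6}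

theorem rot_eq {D : A6 → ℝ} {z m : A6} (h : ∀ θ, D (J θ z) = pr m θ) : rot D z = m := by
  refine A6ext ?_ ?_ ?_ ?_ ?_ ?_
  · rw [show (rot D z).1 0 = D (J (e1 0) z) from rfl, h]; simp [pr, inner3, e1]
  · rw [show (rot D z).1 1 = D (J (e1 1) z) from rfl, h]; simp [pr, inner3, e1]
  · rw [show (rot D z).1 2 = D (J (e1 2) z) from rfl, h]; simp [pr, inner3, e1]
  · rw [show (rot D z).2 0 = D (J (e2 0) z) from rfl, h]; simp [pr, inner3, e2]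
  · rw [show (rot D z).2 1 = D (J (e2 1) z) from rfl, h]; simp [pr, inner3, e2]
  · rw [show (rot D z).2 2 = D (J (e2 2) z) from rfl, h]; simp [pr, inner3, e2]

theorem pr_rot (D : A6 →L[ℝ] ℝ) (z θ : A6) : pr (rot D z) θ = D (J θ z) := by
  have h : pr θ (J z (rep D)) = pr (rep D) (J θ z) := by
    simp only [pr, inner3, J_fst, J_snd, cr0, cr1, cr2]
    ring
  rw [← J_rep, ← pr_rep D, H907H.pr_comm, h]

theorem pr_tau (z c d θ : A6) : pr (tau T z c d) θ = pr c (T (J θ z) d) := by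
  have := pr_rot (((prB c).comp (ContinuousLinearMap.flip T d))) z θ
  have e : (fun ζ => pr c (T ζ d)) = ⇑((prB c).comp (ContinuousLinearMap.flip T d)) := by
    funext ζ
    simp
  rw [tau, e, this]
  simp

/-- the field `W a` is the rotation with generator `K u` -/
theorem WK_eq (z a : A6) : WK (Kaff A T) z a = J (Kaff A T z (J z a)) z := by
  rw [WK_apply, J_anti z, neg_neg]

theorem J_neg_left (a b : A6) : J (-a) b = -J a b := by rw [map_neg]; rfl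

theorem W1_eq {z a : A6} (h1 : ‖z.1‖ = 1) (h2 : ‖z.2‖ = 1) (ha : Tan z a) (θ : A6) :
    W1 (Kaff A T) (fun _ => T) z (J θ z) a =
      J (T (J θ z) (J z a) + Kaff A T z (Pn z (J θ (J z a)))) z +
        J (Kaff A T z (J z a)) (J θ z) := by
  rw [W1, J_J_tan h1 h2 ha, J_anti (J θ z), J_anti z (T (J θ z) (J z a)),
    J_anti z (Kaff A T z (Pn z (J θ (J z a))))]
  have : J (T (J θ z) (J z a) + Kaff A T z (Pn z (J θ (J z a)))) z =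
      J (T (J θ z) (J z a)) z + J (Kaff A T z (Pn z (J θ (J z a)))) z := by
    rw [map_add]; rfl
  rw [this]
  abel

theorem F1_add (c d z ζ ζ' : A6) : F1 (Kaff A T) (fun _ => T) c d z (ζ + ζ') =
    F1 (Kaff A T) (fun _ => T) c d z ζ + F1 (Kaff A T) (fun _ => T) c d z ζ' := by
  simp only [F1, ← prB_apply, map_add, _root_.add_apply]
  ring

theorem F1_eq {z c d : A6} (h1 : ‖z.1‖ = 1) (h2 : ‖z.2‖ = 1) (hc : Tan z c) (hd : Tan z d)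
    (θ : A6) : F1 (Kaff A T) (fun _ => T) c d z (J θ z) =
      pr (Pn z (J θ (J z c))) (Kaff A T z (J z d)) + pr (J z c) (T (J θ z) (J z d)) +
        pr (J z c) (Kaff A T z (Pn z (J θ (J z d)))) := by
  rw [F1, J_J_tan h1 h2 hc, J_J_tan h1 h2 hd]

/-- the general second derivative -/
theorem F2_eq {z c d e : A6} (h1 : ‖z.1‖ = 1) (h2 : ‖z.2‖ = 1) (hc : Tan z c) (hd : Tan z d)
    (he : Tan z e) (θ : A6) :
    F2 (Kaff A T) (fun _ => T) (fun _ => 0) c d z (J (Kaff A T z (J z e)) z) (J θ z)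
      (W1 (Kaff A T) (fun _ => T) z (J θ z) e) =
      (pr (Pn z (J (T (J θ z) (J z e) + Kaff A T z (Pn z (J θ (J z e)))) (J z c)))
          (Kaff A T z (J z d)) +
        pr (J z c) (T (J (T (J θ z) (J z e) + Kaff A T z (Pn z (J θ (J z e)))) z) (J z d)) +
        pr (J z c) (Kaff A T z (Pn z (J (T (J θ z) (J z e) +
          Kaff A T z (Pn z (J θ (J z e)))) (J z d))))) +
      (pr (J (J (Kaff A T z (J z e)) (J θ z)) c) (Kaff A T z (J z d)) +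
        pr (J z c) (T (J (Kaff A T z (J z e)) (J θ z)) (J z d)) +
        pr (J z c) (Kaff A T z (J (J (Kaff A T z (J z e)) (J θ z)) d))) +
      (pr (Pn z (J (Kaff A T z (J z e)) (J z c))) (T (J θ z) (J z d)) +
        pr (Pn z (J (Kaff A T z (J z e)) (J z c))) (Kaff A T z (Pn z (J θ (J z d)))) +
        pr (Pn z (J θ (J z c))) (T (J (Kaff A T z (J z e)) z) (J z d)) +
        pr (J z c) (T (J (Kaff A T z (J z e)) z) (Pn z (J θ (J z d)))) +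
        pr (Pn z (J θ (J z c))) (Kaff A T z (Pn z (J (Kaff A T z (J z e)) (J z d)))) +
        pr (J z c) (T (J θ z) (Pn z (J (Kaff A T z (J z e)) (J z d))))) := by
  rw [F2, W1_eq h1 h2 he, F1_add, F1_eq h1 h2 hc hd, F1, J_J_tan h1 h2 hc, J_J_tan h1 h2 hd,
    J_J_tan h1 h2 hc, J_J_tan h1 h2 hd]
  have : pr (J z c) ((0 : A6 →L[ℝ] A6 →L[ℝ] A6 →L[ℝ] A6) (J θ z) (J (Kaff A T z (J z e)) z)
      (J z d)) = 0 := by
    simp [pr]
  rw [this]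
  ring

theorem rot_F1 {z c d : A6} (h1 : ‖z.1‖ = 1) (h2 : ‖z.2‖ = 1) (hc : Tan z c) (hd : Tan z d)
    (hk : ∀ u v, pr (Kaff A T z u) v = pr u (Kaff A T z v)) :
    rot (F1 (Kaff A T) (fun _ => T) c d z) z =
      (J (J z c) (Kaff A T z (J z d)) - Pn z (J (J z c) (Kaff A T z (J z d)))) +
      (J (J z d) (Kaff A T z (J z c)) - Pn z (J (J z d) (Kaff A T z (J z c)))) +
      tau T z (J z c) (J z d) := by
  refine rot_eq fun θ => ?_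
  have e1 : pr (Pn z (J θ (J z c))) (Kaff A T z (J z d)) =
      pr (J (J z c) (Kaff A T z (J z d)) - Pn z (J (J z c) (Kaff A T z (J z d)))) θ := by
    rw [pr_Pn, pr_triple, J_Pn h1 h2 (tan_J z c), H907H.pr_comm]
  have e2 : pr (J z c) (Kaff A T z (Pn z (J θ (J z d)))) =
      pr (J (J z d) (Kaff A T z (J z c)) - Pn z (J (J z d) (Kaff A T z (J z c)))) θ := by
    rw [← hk, H907H.pr_comm, pr_Pn, pr_triple, J_Pn h1 h2 (tan_J z d), H907H.pr_comm]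
  rw [F1_eq h1 h2 hc hd, e1, e2, ← pr_tau]
  simp only [← prB_apply, map_add, _root_.add_apply]
  ring

theorem pr_Pn_J {z c : A6} (h1 : ‖z.1‖ = 1) (h2 : ‖z.2‖ = 1) (Y v : A6) :
    pr (Pn z (J Y (J z c))) v = pr Y (J (J z c) v) - pr Y (Pn z (J (J z c) v)) := by
  rw [pr_Pn, pr_triple, J_Pn h1 h2 (tan_J z c)]
  simp only [← prB_apply, map_sub]

theorem pr_T_add (z c d Y Y' : A6) : pr c (T (J (Y + Y') z) d) =
    pr c (T (J Y z) d) + pr (tau T z c d) Y' := by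
  rw [pr_tau]
  simp only [← prB_apply, map_add, _root_.add_apply]

end bridge

end Pool.Agent.H917R2.HO
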